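import Mathlib

/-!
# The combinatorial core: finite conditions on functions `T → T`
-/

namespace Pool.Agent.Helper80.BR

open Set

/-- Coordinates and values: dummies, and two nodes (a tag and a pointer) for every coded finite
condition. -/
inductive T (K : Type) : Type
  | dum (k : K) : T K
  | node (b : Bool) (n : ℕ) (f g : Fin n → T K) : T K

/-- Codes of finite conditions (finite sets of pairs). -/
structure Code (K : Type) where
  n : ℕ
  f : Fin n → T K
  g : Fin n → T K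

variable {K : Type}

/-- The tag coordinate of a code. -/
def Code.tag (s : Code K) : T K := T.node true s.n s.f s.g

/-- The pointer coordinate of a code. -/
def Code.ptr (s : Code K) : T K := T.node false s.n s.f s.g

/-- The finite set of pairs coded by `s`. -/
def Code.gr (s : Code K) : Set (T K × T K) := Set.range (fun i => (s.f i, s.g i))

/-- The value `1`. -/
def one : T K := T.node true 0 Fin.elim0 Fin.elim0

/-- The value `0`. -/
def zero : T K := T.node false 0 Fin.elim0 Fin.elim0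

theorem Code.tag_inj {s t : Code K} (h : s.tag = t.tag) : s = t := by
  rcases s with ⟨n, f, g⟩
  rcases t with ⟨m, f', g'⟩
  simp only [Code.tag, T.node.injEq, true_and] at h
  obtain ⟨rfl, hf, hg⟩ := h
  rw [eq_of_heq hf, eq_of_heq hg]

theorem Code.ptr_inj {s t : Code K} (h : s.ptr = t.ptr) : s = t := by
  rcases s with ⟨n, f, g⟩
  rcases t with ⟨m, f', g'⟩
  simp only [Code.ptr, T.node.injEq, true_and] at h
  obtain ⟨rfl, hf, hg⟩ := h
  rw [eq_of_heq hf, eq_of_heq hg]

theorem Code.tag_ne_ptr (s t : Code K) : s.tag ≠ t.ptr := by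
  simp [Code.tag, Code.ptr]

theorem Code.tag_ne_dum (s : Code K) (k : K) : s.tag ≠ T.dum k := by
  simp [Code.tag]

theorem Code.ptr_ne_dum (s : Code K) (k : K) : s.ptr ≠ T.dum k := by
  simp [Code.ptr]

theorem zero_ne_one : (zero : T K) ≠ one := by
  simp [zero, one]

theorem zero_ne_tag (s : Code K) : zero ≠ s.tag := by
  simp [zero, Code.tag]

theorem Code.gr_finite (s : Code K) : s.gr.Finite := Set.finite_range _

/-- Every finite set of pairs is coded. -/
theorem exists_code {F : Set (T K × T K)} (hF : F.Finite) : ∃ s : Code K, s.gr = F := by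
  obtain ⟨n, f, hf⟩ := hF.fin_param
  refine ⟨⟨n, fun i => (f i).1, fun i => (f i).2⟩, ?_⟩
  simp only [Code.gr, Prod.mk.eta]
  exact hf.2

/-- Domain of a set of pairs. -/
def dom (y : Set (T K × T K)) : Set (T K) := {a | ∃ b, (a, b) ∈ y}

theorem mem_dom {y : Set (T K × T K)} {a : T K} : a ∈ dom y ↔ ∃ b, (a, b) ∈ y := Iff.rfl

theorem dom_mono {y y' : Set (T K × T K)} (h : y ⊆ y') : dom y ⊆ dom y' :=
  fun _ ⟨b, hb⟩ => ⟨b, h hb⟩

theorem dom_union (y y' : Set (T K × T K)) : dom (y ∪ y') = dom y ∪ dom y' := by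
  ext a; simp only [mem_dom, mem_union, exists_or]

theorem dom_insert (p : T K × T K) (y : Set (T K × T K)) :
    dom (insert p y) = insert p.1 (dom y) := by
  ext a
  simp only [mem_dom, mem_insert_iff]
  constructor
  · rintro ⟨b, h | h⟩
    · left; rw [← h]
    · exact Or.inr ⟨b, h⟩
  · rintro (h | ⟨b, h⟩)
    · exact ⟨p.2, Or.inl (by rw [h])⟩
    · exact ⟨b, Or.inr h⟩

theorem dom_countable {y : Set (T K × T K)} (h : y.Countable) : (dom y).Countable := by
  have : dom y = Prod.fst '' y := by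
    ext a; simp [dom]
  rw [this]; exact h.image _

theorem mem_dom_gr {s : Code K} {a : T K} : a ∈ dom s.gr ↔ ∃ i, s.f i = a := by
  simp only [dom, Code.gr, mem_range, Prod.mk.injEq]
  constructor
  · rintro ⟨b, i, h, -⟩; exact ⟨i, h⟩
  · rintro ⟨i, h⟩; exact ⟨_, i, h, rfl⟩

/-- Functional sets of pairs (partial functions). -/
def Fn (y : Set (T K × T K)) : Prop := ∀ ⦃a b b'⦄, (a, b) ∈ y → (a, b') ∈ y → b = b'

theorem Fn.mono {y y' : Set (T K × T K)} (h : Fn y') (hs : y ⊆ y') : Fn y :=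
  fun _ _ _ h1 h2 => h (hs h1) (hs h2)

/-- Closed sets of pairs. -/
structure Cl (y : Set (T K × T K)) : Prop where
  tagdom : ∀ s : Code K, s.tag ∈ dom y → dom s.gr ⊆ dom y
  ptrdom : ∀ s : Code K, s.ptr ∈ dom y → dom s.gr ⊆ dom y
  ptrval : ∀ (s : Code K) (b), (s.ptr, b) ∈ y → s.gr ⊆ y →
    ∃ s' : Code K, b = s'.tag ∧ s.gr ⊆ s'.gr ∧ s'.gr ⊆ y ∧ (s'.tag, one) ∈ y

/-- In a functional set, a condition whose domain lies in the domain of a subset lies in it. -/
theorem gr_subset_of_dom {y g F : Set (T K × T K)} (hy : Fn y) (hg : g ⊆ y)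
    (hF : F ⊆ y) (hd : dom F ⊆ dom g) : F ⊆ g := by
  rintro ⟨a, b⟩ hab
  obtain ⟨b', hb'⟩ := hd ⟨b, hab⟩
  rwa [hy (hF hab) (hg hb')]

theorem Cl.sUnion {y : Set (T K × T K)} (hy : Fn y) {G : Set (Set (T K × T K))}
    (hG : ∀ g ∈ G, g ⊆ y ∧ Cl g) : Cl (⋃₀ G) := by
  have hsub : ⋃₀ G ⊆ y := sUnion_subset fun g hg => (hG g hg).1
  refine ⟨?_, ?_, ?_⟩
  · rintro s ⟨b, g, hg, hb⟩
    exact ((hG g hg).2.tagdom s ⟨b, hb⟩).trans (dom_mono (subset_sUnion_of_mem hg))
  · rintro s ⟨b, g, hg, hb⟩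
    exact ((hG g hg).2.ptrdom s ⟨b, hb⟩).trans (dom_mono (subset_sUnion_of_mem hg))
  · rintro s b ⟨g, hg, hb⟩ hs
    have h1 : s.gr ⊆ g :=
      gr_subset_of_dom hy (hG g hg).1 (hs.trans hsub) ((hG g hg).2.ptrdom s ⟨b, hb⟩)
    obtain ⟨s', h2, h3, h4, h5⟩ := (hG g hg).2.ptrval s b hb h1
    exact ⟨s', h2, h3, h4.trans (subset_sUnion_of_mem hg), ⟨g, hg, h5⟩⟩

/-- Good sets of pairs. -/
def Good (y : Set (T K × T K)) : Prop :=
  Fn y ∧ ∀ p ∈ y, ∃ g : Set (T K × T K), g.Finite ∧ p ∈ g ∧ g ⊆ y ∧ Cl g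

theorem Good.fn {y : Set (T K × T K)} (h : Good y) : Fn y := h.1

theorem good_empty : Good (∅ : Set (T K × T K)) :=
  ⟨fun _ _ _ h => absurd h (notMem_empty _), fun _ h => absurd h (notMem_empty _)⟩

theorem Good.cl {y : Set (T K × T K)} (h : Good y) : Cl y := by
  have h1 : ⋃₀ {g | g ⊆ y ∧ Cl g} = y := by
    apply subset_antisymm
    · exact sUnion_subset fun g hg => hg.1
    · intro p hp
      obtain ⟨g, -, h2, h3, h4⟩ := h.2 p hp
      exact ⟨g, ⟨h3, h4⟩, h2⟩
  have h2 := Cl.sUnion h.fn (G := {g | g ⊆ y ∧ Cl g}) (fun g hg => hg)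
  rwa [h1] at h2

theorem Good.finite_sub {y : Set (T K × T K)} (h : Good y) {F : Set (T K × T K)}
    (hF : F.Finite) (hFy : F ⊆ y) :
    ∃ g : Set (T K × T K), g.Finite ∧ F ⊆ g ∧ g ⊆ y ∧ Cl g := by
  choose! G hG1 hG2 hG3 hG4 using h.2
  refine ⟨⋃₀ (G '' F), ?_, ?_, ?_, ?_⟩
  · refine (hF.image G).sUnion ?_
    rintro _ ⟨p, hp, rfl⟩
    exact hG1 p (hFy hp)
  · intro p hp
    exact ⟨G p, ⟨p, hp, rfl⟩, hG2 p (hFy hp)⟩
  · refine sUnion_subset ?_
    rintro _ ⟨p, hp, rfl⟩
    exact hG3 p (hFy hp)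
  · refine Cl.sUnion h.fn ?_
    rintro _ ⟨p, hp, rfl⟩
    exact ⟨hG3 p (hFy hp), hG4 p (hFy hp)⟩

/-- A union of good sets is good, if it is functional. -/
theorem Good.sUnion {G : Set (Set (T K × T K))} (hG : ∀ g ∈ G, Good g) (hf : Fn (⋃₀ G)) :
    Good (⋃₀ G) := by
  refine ⟨hf, ?_⟩
  rintro p ⟨g, hg, hp⟩
  obtain ⟨g', h1, h2, h3, h4⟩ := (hG g hg).2 p hp
  exact ⟨g', h1, h2, h3.trans (subset_sUnion_of_mem hg), h4⟩

theorem Good.union {y y' : Set (T K × T K)} (h : Good y) (h' : Good y') (hf : Fn (y ∪ y')) :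
    Good (y ∪ y') := by
  rw [← sUnion_pair] at hf ⊢
  refine Good.sUnion ?_ hf
  rintro g (rfl | rfl)
  · exact h
  · exact h'

theorem Good.of_cl_finite {g : Set (T K × T K)} (hf : Fn g) (hfin : g.Finite) (hg : Cl g) :
    Good g :=
  ⟨hf, fun _ hp => ⟨g, hfin, hp, Subset.rfl, hg⟩⟩

theorem Fn.iUnion_mono {ι : Type*} [LinearOrder ι] {Y : ι → Set (T K × T K)} (hmono : Monotone Y)
    (h : ∀ i, Fn (Y i)) : Fn (⋃ i, Y i) := by
  intro a b b' h1 h2
  obtain ⟨i, hi⟩ := mem_iUnion.1 h1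
  obtain ⟨j, hj⟩ := mem_iUnion.1 h2
  exact h (max i j) (hmono (le_max_left i j) hi) (hmono (le_max_right i j) hj)

theorem Fn.insert {y : Set (T K × T K)} (h : Fn y) {a b : T K} (ha : a ∉ dom y) :
    Fn (insert (a, b) y) := by
  rintro x u v (h1 | h1) (h2 | h2)
  · rw [Prod.mk.injEq] at h1 h2
    rw [h1.2, h2.2]
  · rw [Prod.mk.injEq] at h1
    exact absurd ⟨v, h1.1 ▸ h2⟩ ha
  · rw [Prod.mk.injEq] at h2
    exact absurd ⟨u, h2.1 ▸ h1⟩ ha
  · exact h h1 h2

/-- Inserting a pair with a new first coordinate does not change which conditions whose domain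
is in `dom y` are contained. -/
theorem subset_of_subset_insert {y F : Set (T K × T K)} {a b : T K} (ha : a ∉ dom y)
    (hF : F ⊆ insert (a, b) y) (hd : dom F ⊆ dom y) : F ⊆ y := by
  rintro ⟨u, v⟩ huv
  rcases hF huv with h | h
  · rw [Prod.mk.injEq] at h
    exact absurd (h.1 ▸ hd ⟨v, huv⟩) ha
  · exact h

/-- Inserting a dummy. -/
theorem Cl.insert_dum {y : Set (T K × T K)} (h : Cl y) {k : K} {b : T K}
    (ha : T.dum k ∉ dom y) : Cl (insert (T.dum k, b) y) := by
  refine ⟨?_, ?_, ?_⟩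
  · intro s hs
    rw [dom_insert] at hs ⊢
    rcases hs with hs | hs
    · exact absurd hs (s.tag_ne_dum k)
    · exact (h.tagdom s hs).trans (subset_insert _ _)
  · intro s hs
    rw [dom_insert] at hs ⊢
    rcases hs with hs | hs
    · exact absurd hs (s.ptr_ne_dum k)
    · exact (h.ptrdom s hs).trans (subset_insert _ _)
  · rintro s c (hs | hs) hsub
    · rw [Prod.mk.injEq] at hs
      exact absurd hs.1 (s.ptr_ne_dum k)
    · have h1 : s.gr ⊆ y := subset_of_subset_insert ha hsub (h.ptrdom s ⟨c, hs⟩)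
      obtain ⟨s', h2, h3, h4, h5⟩ := h.ptrval s c hs h1
      exact ⟨s', h2, h3, h4.trans (subset_insert _ _), Or.inr h5⟩

theorem Good.insert_dum {y : Set (T K × T K)} (h : Good y) {k : K} {b : T K}
    (ha : T.dum k ∉ dom y) : Good (insert (T.dum k, b) y) := by
  refine ⟨h.fn.insert ha, ?_⟩
  rintro p (rfl | hp)
  · refine ⟨insert (T.dum k, b) ∅, by simp, by simp, by simp, Cl.insert_dum ?_ ?_⟩
    · exact good_empty.cl
    · rintro ⟨_, h⟩; exact h
  · obtain ⟨g, h1, h2, h3, h4⟩ := h.2 p hp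
    exact ⟨g, h1, h2, h3.trans (subset_insert _ _), h4⟩

/-- Inserting a tag. -/
theorem Cl.insert_tag {y : Set (T K × T K)} (h : Cl y) {t : Code K} {b : T K}
    (ha : t.tag ∉ dom y) (hd : dom t.gr ⊆ dom y) : Cl (insert (t.tag, b) y) := by
  refine ⟨?_, ?_, ?_⟩
  · intro s hs
    rw [dom_insert] at hs ⊢
    rcases hs with hs | hs
    · rw [Code.tag_inj hs]
      exact hd.trans (subset_insert _ _)
    · exact (h.tagdom s hs).trans (subset_insert _ _)
  · intro s hs
    rw [dom_insert] at hs ⊢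
    rcases hs with hs | hs
    · exact absurd hs.symm (Code.tag_ne_ptr t s)
    · exact (h.ptrdom s hs).trans (subset_insert _ _)
  · rintro s c (hs | hs) hsub
    · rw [Prod.mk.injEq] at hs
      exact absurd hs.1.symm (Code.tag_ne_ptr t s)
    · have h1 : s.gr ⊆ y := subset_of_subset_insert ha hsub (h.ptrdom s ⟨c, hs⟩)
      obtain ⟨s', h2, h3, h4, h5⟩ := h.ptrval s c hs h1
      exact ⟨s', h2, h3, h4.trans (subset_insert _ _), Or.inr h5⟩

/-- A finite set of domain elements lies in the domain of a finite closed subset. -/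
theorem Good.finite_dom {y : Set (T K × T K)} (h : Good y) {F : Set (T K × T K)}
    (hF : F.Finite) (hFy : dom F ⊆ dom y) :
    ∃ g : Set (T K × T K), g.Finite ∧ dom F ⊆ dom g ∧ g ⊆ y ∧ Cl g := by
  choose! v hv using (fun a (ha : a ∈ dom y) => ha)
  have h1 : ((fun p : T K × T K => (p.1, v p.1)) '' F).Finite := hF.image _
  obtain ⟨g, hg1, hg2, hg3, hg4⟩ := h.finite_sub h1 (by
    rintro _ ⟨⟨a, b⟩, hp, rfl⟩
    exact hv a (hFy ⟨b, hp⟩))
  refine ⟨g, hg1, ?_, hg3, hg4⟩
  rintro a ⟨b, hab⟩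
  exact ⟨v a, hg2 ⟨(a, b), hab, rfl⟩⟩

theorem Good.insert_tag {y : Set (T K × T K)} (h : Good y) {t : Code K} {b : T K}
    (ha : t.tag ∉ dom y) (hd : dom t.gr ⊆ dom y) : Good (insert (t.tag, b) y) := by
  refine ⟨h.fn.insert ha, ?_⟩
  rintro p (rfl | hp)
  · obtain ⟨g, h1, h2, h3, h4⟩ := h.finite_dom t.gr_finite hd
    exact ⟨insert (t.tag, b) g, h1.insert _, mem_insert _ _, insert_subset_insert h3,
      Cl.insert_tag h4 (fun h => ha (dom_mono h3 h)) h2⟩
  · obtain ⟨g, h1, h2, h3, h4⟩ := h.2 p hp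
    exact ⟨g, h1, h2, h3.trans (subset_insert _ _), h4⟩

/-- Inserting a pointer. -/
theorem Cl.insert_ptr {y : Set (T K × T K)} (h : Cl y) {t : Code K} {b : T K}
    (ha : t.ptr ∉ dom y) (hd : dom t.gr ⊆ dom y)
    (hb : t.gr ⊆ y → ∃ s' : Code K, b = s'.tag ∧ t.gr ⊆ s'.gr ∧ s'.gr ⊆ y ∧ (s'.tag, one) ∈ y) :
    Cl (insert (t.ptr, b) y) := by
  refine ⟨?_, ?_, ?_⟩
  · intro s hs
    rw [dom_insert] at hs ⊢
    rcases hs with hs | hs
    · exact absurd hs (Code.tag_ne_ptr s t)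
    · exact (h.tagdom s hs).trans (subset_insert _ _)
  · intro s hs
    rw [dom_insert] at hs ⊢
    rcases hs with hs | hs
    · rw [Code.ptr_inj hs]
      exact hd.trans (subset_insert _ _)
    · exact (h.ptrdom s hs).trans (subset_insert _ _)
  · rintro s c (hs | hs) hsub
    · rw [Prod.mk.injEq] at hs
      obtain ⟨hs1, rfl⟩ := hs
      rw [Code.ptr_inj hs1] at hsub ⊢
      obtain ⟨s', h2, h3, h4, h5⟩ := hb (subset_of_subset_insert ha hsub hd)
      exact ⟨s', h2, h3, h4.trans (subset_insert _ _), Or.inr h5⟩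
    · have h1 : s.gr ⊆ y := subset_of_subset_insert ha hsub (h.ptrdom s ⟨c, hs⟩)
      obtain ⟨s', h2, h3, h4, h5⟩ := h.ptrval s c hs h1
      exact ⟨s', h2, h3, h4.trans (subset_insert _ _), Or.inr h5⟩

theorem Good.insert_ptr {y : Set (T K × T K)} (h : Good y) {t : Code K} {b : T K}
    (ha : t.ptr ∉ dom y) (hd : dom t.gr ⊆ dom y)
    (hb : t.gr ⊆ y → ∃ s' : Code K, b = s'.tag ∧ t.gr ⊆ s'.gr ∧ s'.gr ⊆ y ∧ (s'.tag, one) ∈ y) :
    Good (insert (t.ptr, b) y) := by
  refine ⟨h.fn.insert ha, ?_⟩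
  rintro p (rfl | hp)
  · by_cases hty : t.gr ⊆ y
    · obtain ⟨s', hs1, hs2, hs3, hs4⟩ := hb hty
      obtain ⟨g, h1, h2, h3, h4⟩ := h.finite_sub (F := insert (s'.tag, one) s'.gr)
        (s'.gr_finite.insert _) (by
          intro p hp
          rcases hp with rfl | hp
          · exact hs4
          · exact hs3 hp)
      have h5 : s'.gr ⊆ g := (subset_insert _ _).trans h2
      refine ⟨insert (t.ptr, b) g, h1.insert _, mem_insert _ _, insert_subset_insert h3,
        Cl.insert_ptr h4 (fun h => ha (dom_mono h3 h)) (dom_mono (hs2.trans h5)) ?_⟩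
      intro _
      exact ⟨s', hs1, hs2, h5, h2 (mem_insert _ _)⟩
    · obtain ⟨g, h1, h2, h3, h4⟩ := h.finite_dom t.gr_finite hd
      refine ⟨insert (t.ptr, b) g, h1.insert _, mem_insert _ _, insert_subset_insert h3,
        Cl.insert_ptr h4 (fun h => ha (dom_mono h3 h)) h2 ?_⟩
      intro h6
      exact absurd (h6.trans h3) hty
  · obtain ⟨g, h1, h2, h3, h4⟩ := h.2 p hp
    exact ⟨g, h1, h2, h3.trans (subset_insert _ _), h4⟩

/-- `s` is accepted by `y`. -/
def Acc (y : Set (T K × T K)) (s : Code K) : Prop := s.gr ⊆ y ∧ (s.tag, one) ∈ y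

/-- All accepted conditions with `ζ` in their domain have colour `i`. -/
def Clean (c : Code K → Bool) (i : Bool) (ζ : T K) (y : Set (T K × T K)) : Prop :=
  ∀ s, Acc y s → ζ ∈ dom s.gr → c s = i

/-- A condition accepted by a functional extension, whose tag is in the domain of the closed
set `y`, is accepted by `y`. -/
theorem acc_of_acc {y y' : Set (T K × T K)} (hf : Fn y') (hyy : y ⊆ y') (hy : Cl y) {s : Code K}
    (hs : Acc y' s) (ht : s.tag ∈ dom y) : Acc y s := by
  refine ⟨gr_subset_of_dom hf hyy hs.1 (hy.tagdom s ht), ?_⟩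
  obtain ⟨b, hb⟩ := ht
  rwa [hf hs.2 (hyy hb)]

theorem Clean.insert {c : Code K → Bool} {i : Bool} {ζ : T K} {y : Set (T K × T K)}
    (hc : Clean c i ζ y) (hy : Cl y) (hf : Fn y) {a b : T K} (ha : a ∉ dom y)
    (hab : ∀ s : Code K, s.tag = a → b = one → c s = i) : Clean c i ζ (insert (a, b) y) := by
  intro s hs hζ
  by_cases hta : s.tag = a
  · apply hab s hta
    rcases hs.2 with h | h
    · rw [Prod.mk.injEq] at h
      exact h.2.symm
    · exact absurd ⟨_, h⟩ (hta ▸ ha)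
  · refine hc s (acc_of_acc (hf.insert ha) (subset_insert _ _) hy hs ?_) hζ
    rcases hs.2 with h | h
    · rw [Prod.mk.injEq] at h
      exact absurd h.1 hta
    · exact ⟨_, h⟩

/-- Countable, good, clean. -/
structure CGC (c : Code K → Bool) (i : Bool) (ζ : T K) (y : Set (T K × T K)) : Prop where
  countable : y.Countable
  good : Good y
  clean : Clean c i ζ y

/-- `y` is stuck for `(i, ζ)` with the finite condition `r`. -/
def Stuck (c : Code K → Bool) (i : Bool) (ζ : T K) (y r : Set (T K × T K)) : Prop :=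
  ∀ y', CGC c i ζ y' → y ⊆ y' → ∀ s : Code K, s.gr ⊆ y' → r ⊆ s.gr → ζ ∈ dom s.gr →
    s.tag ∉ dom y' → c s ≠ i

/-- One-step extension. -/
theorem exists_ext {c : Code K → Bool} {i : Bool} {ζ : T K} {y : Set (T K × T K)}
    (hns : ∀ y', CGC c i ζ y' → y ⊆ y' → ∀ r : Set (T K × T K), r.Finite → r ⊆ y' →
      ¬ Stuck c i ζ y' r) (x : T K) :
    ∀ y', CGC c i ζ y' → y ⊆ y' → ∃ y'', CGC c i ζ y'' ∧ y' ⊆ y'' ∧ x ∈ dom y'' := by
  induction x with
  | dum k =>
    intro y' hy' hyy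
    by_cases hk : T.dum k ∈ dom y'
    · exact ⟨y', hy', Subset.rfl, hk⟩
    · refine ⟨insert (T.dum k, zero) y', ⟨hy'.countable.insert _, hy'.good.insert_dum hk,
        hy'.clean.insert hy'.good.cl hy'.good.fn hk ?_⟩, subset_insert _ _,
        ⟨zero, mem_insert _ _⟩⟩
      intro s hs
      exact absurd hs (s.tag_ne_dum k)
  | node b n f g ihf _ =>
    intro y' hy' hyy
    -- first put all `f j` into the domain
    have key : ∀ m : ℕ, m ≤ n → ∃ y'', CGC c i ζ y'' ∧ y' ⊆ y'' ∧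
        ∀ j : Fin n, (j : ℕ) < m → f j ∈ dom y'' := by
      intro m
      induction m with
      | zero => exact fun _ => ⟨y', hy', Subset.rfl, fun j hj => absurd hj (Nat.not_lt_zero _)⟩
      | succ m ih =>
        intro hm
        obtain ⟨y1, h1, h2, h3⟩ := ih (Nat.le_of_succ_le hm)
        obtain ⟨y2, h4, h5, h6⟩ := ihf ⟨m, hm⟩ y1 h1 (hyy.trans h2)
        refine ⟨y2, h4, h2.trans h5, ?_⟩
        intro j hj
        rcases Nat.lt_succ_iff_lt_or_eq.1 hj with hj' | hj'
        · exact dom_mono h5 (h3 j hj')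
        · have : j = ⟨m, hm⟩ := Fin.ext hj'
          rw [this]; exact h6
    obtain ⟨y1, h1, h2, h3⟩ := key n le_rfl
    let s : Code K := ⟨n, f, g⟩
    have hsd : dom s.gr ⊆ dom y1 := by
      intro a ha
      obtain ⟨j, rfl⟩ := mem_dom_gr.1 ha
      exact h3 j j.2
    cases b with
    | true =>
      change ∃ y'', CGC c i ζ y'' ∧ y' ⊆ y'' ∧ s.tag ∈ dom y''
      by_cases hk : s.tag ∈ dom y1
      · exact ⟨y1, h1, h2, hk⟩
      · refine ⟨insert (s.tag, zero) y1, ⟨h1.countable.insert _, h1.good.insert_tag hk hsd,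
          h1.clean.insert h1.good.cl h1.good.fn hk ?_⟩, h2.trans (subset_insert _ _),
          ⟨zero, mem_insert _ _⟩⟩
        intro _ _ h
        exact absurd h zero_ne_one
    | false =>
      change ∃ y'', CGC c i ζ y'' ∧ y' ⊆ y'' ∧ s.ptr ∈ dom y''
      by_cases hk : s.ptr ∈ dom y1
      · exact ⟨y1, h1, h2, hk⟩
      by_cases hsy : s.gr ⊆ y1
      · have h4 := hns y1 h1 (hyy.trans h2) s.gr s.gr_finite hsy
        simp only [Stuck, not_forall, not_not] at h4
        obtain ⟨y2, h5, h6, s', h7, h8, h9, h10, h11⟩ := h4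
        by_cases hk2 : s.ptr ∈ dom y2
        · exact ⟨y2, h5, h2.trans h6, hk2⟩
        have g1 : Good (insert (s'.tag, one) y2) := h5.good.insert_tag h10 (dom_mono h7)
        have c1 : Clean c i ζ (insert (s'.tag, one) y2) := by
          refine h5.clean.insert h5.good.cl h5.good.fn h10 ?_
          intro t ht _
          rw [Code.tag_inj ht]; exact h11
        have hk3 : s.ptr ∉ dom (insert (s'.tag, one) y2) := by
          rw [dom_insert]
          rintro (h | h)
          · exact Code.tag_ne_ptr s' s h.symm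
          · exact hk2 h
        refine ⟨insert (s.ptr, s'.tag) (insert (s'.tag, one) y2),
          ⟨(h5.countable.insert _).insert _, g1.insert_ptr hk3 ?_ ?_,
            c1.insert g1.cl g1.fn hk3 ?_⟩,
          (h2.trans h6).trans ((subset_insert _ _).trans (subset_insert _ _)),
          ⟨s'.tag, mem_insert _ _⟩⟩
        · exact dom_mono ((hsy.trans h6).trans (subset_insert _ _))
        · intro _
          exact ⟨s', rfl, h8, h7.trans (subset_insert _ _), mem_insert _ _⟩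
        · intro t ht
          exact absurd ht (Code.tag_ne_ptr t s)
      · refine ⟨insert (s.ptr, zero) y1, ⟨h1.countable.insert _, h1.good.insert_ptr hk hsd ?_,
          h1.clean.insert h1.good.cl h1.good.fn hk ?_⟩, h2.trans (subset_insert _ _),
          ⟨zero, mem_insert _ _⟩⟩
        · intro h; exact absurd h hsy
        · intro t ht
          exact absurd ht (Code.tag_ne_ptr t s)

end Pool.Agent.Helper80.BR
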