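import Mathlib
import Pool.Agent.Helper80.BR.Core

/-!
# Total good extensions, and the core theorem
-/

namespace Pool.Agent.Helper80.BR

open Set

variable {K : Type}

/-- The graph of a total function. -/
def graph (z : T K → T K) : Set (T K × T K) := {p | z p.1 = p.2}

theorem mem_graph {z : T K → T K} {a b : T K} : (a, b) ∈ graph z ↔ z a = b := Iff.rfl

open Classical in
/-- One step of the recursion. -/
noncomputable def ext (P : Set (T K × T K) → Prop) (x : T K) (y : Set (T K × T K)) :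
    Set (T K × T K) :=
  if h : ∃ y'', P y'' ∧ y ⊆ y'' ∧ x ∈ dom y'' then h.choose else y

theorem subset_ext (P : Set (T K × T K) → Prop) (x : T K) (y : Set (T K × T K)) :
    y ⊆ ext P x y := by
  unfold ext
  split_ifs with h
  · exact h.choose_spec.2.1
  · exact Subset.rfl

theorem ext_spec {P : Set (T K × T K) → Prop} {x : T K} {y : Set (T K × T K)}
    (h : ∃ y'', P y'' ∧ y ⊆ y'' ∧ x ∈ dom y'') : P (ext P x y) ∧ x ∈ dom (ext P x y) := by
  unfold ext
  rw [dif_pos h]
  exact ⟨h.choose_spec.1, h.choose_spec.2.2⟩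

theorem exists_total [LinearOrder (T K)] [WellFoundedLT (T K)]
    (hord : ∀ x : T K, (Iio x).Countable)
    {c : Code K → Bool} {i : Bool} {ζ : T K} {y : Set (T K × T K)} (hy : CGC c i ζ y)
    (hns : ∀ y', CGC c i ζ y' → y ⊆ y' → ∀ r : Set (T K × T K), r.Finite → r ⊆ y' →
      ¬ Stuck c i ζ y' r) :
    ∃ z : T K → T K, Good (graph z) ∧ Clean c i ζ (graph z) := by
  have hwf : WellFounded ((· < ·) : T K → T K → Prop) := wellFounded_lt
  let Y : T K → Set (T K × T K) := hwf.fix
    (fun x rec => ext (CGC c i ζ) x (y ∪ ⋃ x', ⋃ h : x' < x, rec x' h))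
  have hY : ∀ x, Y x = ext (CGC c i ζ) x (y ∪ ⋃ x', ⋃ _ : x' < x, Y x') := by
    intro x
    exact hwf.fix_eq _ x
  have hZ : ∀ x, (y ∪ ⋃ x', ⋃ _ : x' < x, Y x') ⊆ Y x := by
    intro x
    conv_rhs => rw [hY x]
    exact subset_ext _ _ _
  have hyY : ∀ x, y ⊆ Y x := fun x => subset_union_left.trans (hZ x)
  have hmono : Monotone Y := by
    intro a b hab
    rcases hab.lt_or_eq with h | h
    · refine Subset.trans ?_ (hZ b)
      refine Subset.trans ?_ subset_union_right
      exact subset_iUnion₂_of_subset a h Subset.rfl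
    · rw [h]
  -- union lemma
  have hunion : ∀ D : Set (T K), D.Countable ∨ True → (∀ x ∈ D, CGC c i ζ (Y x)) →
      Good (y ∪ ⋃ x ∈ D, Y x) ∧ Clean c i ζ (y ∪ ⋃ x ∈ D, Y x) := by
    intro D _ hD
    have hfn : Fn (y ∪ ⋃ x ∈ D, Y x) := by
      intro a b b' h1 h2
      rcases h1 with h1 | h1
      · rcases h2 with h2 | h2
        · exact hy.good.fn h1 h2
        · obtain ⟨x, hx, h2⟩ := mem_iUnion₂.1 h2
          exact (hD x hx).good.fn (hyY x h1) h2
      · obtain ⟨x, hx, h1⟩ := mem_iUnion₂.1 h1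
        rcases h2 with h2 | h2
        · exact (hD x hx).good.fn h1 (hyY x h2)
        · obtain ⟨x', hx', h2⟩ := mem_iUnion₂.1 h2
          rcases le_total x x' with h | h
          · exact (hD x' hx').good.fn (hmono h h1) h2
          · exact (hD x hx).good.fn h1 (hmono h h2)
    have hG : (y ∪ ⋃ x ∈ D, Y x) = ⋃₀ (insert y (Y '' D)) := by
      rw [sUnion_insert, sUnion_image]
    have hGgood : ∀ g ∈ insert y (Y '' D), Good g ∧ Clean c i ζ g := by
      rintro g (rfl | ⟨x, hx, rfl⟩)
      · exact ⟨hy.good, hy.clean⟩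
      · exact ⟨(hD x hx).good, (hD x hx).clean⟩
    refine ⟨?_, ?_⟩
    · rw [hG] at hfn ⊢
      exact Good.sUnion (fun g hg => (hGgood g hg).1) hfn
    · rw [hG] at hfn ⊢
      intro s hs hζ
      obtain ⟨g, hg, hsg⟩ := hs.2
      exact (hGgood g hg).2 s (acc_of_acc hfn (subset_sUnion_of_mem hg) (hGgood g hg).1.cl hs
        ⟨_, hsg⟩) hζ
  have hmain : ∀ x, CGC c i ζ (Y x) ∧ x ∈ dom (Y x) := by
    intro x
    induction x using hwf.induction with
    | _ x ih =>
      rw [hY x]
      apply ext_spec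
      have h1 := hunion (Iio x) (Or.inr trivial) (fun x' hx' => (ih x' hx').1)
      have h2 : (y ∪ ⋃ x' ∈ Iio x, Y x').Countable :=
        hy.countable.union ((hord x).biUnion fun x' hx' => (ih x' hx').1.countable)
      exact exists_ext hns x _ ⟨h2, h1.1, h1.2⟩ subset_union_left
  obtain ⟨h1, h2⟩ := hunion univ (Or.inr trivial) (fun x _ => (hmain x).1)
  set W := y ∪ ⋃ x ∈ (univ : Set (T K)), Y x with hW
  have htot : ∀ x, ∃ b, (x, b) ∈ W := by
    intro x
    obtain ⟨b, hb⟩ := (hmain x).2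
    exact ⟨b, Or.inr (mem_iUnion₂.2 ⟨x, mem_univ x, hb⟩)⟩
  choose z hz using htot
  have hgr : graph z = W := by
    ext ⟨a, b⟩
    rw [mem_graph]
    constructor
    · rintro rfl; exact hz a
    · intro h; exact h1.fn (hz a) h
  exact ⟨z, hgr ▸ h1, hgr ▸ h2⟩

/-- The closed set of histories. -/
def HH (z : T K → T K) : Prop :=
  ∀ s : Code K, s.gr ⊆ graph z →
    ∃ s' : Code K, z s.ptr = s'.tag ∧ s.gr ⊆ s'.gr ∧ s'.gr ⊆ graph z ∧ z s'.tag = one

theorem HH_of_good {z : T K → T K} (h : Good (graph z)) : HH z := by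
  intro s hs
  obtain ⟨s', h1, h2, h3, h4⟩ := h.cl.ptrval s (z s.ptr) rfl hs
  exact ⟨s', h1, h2, h3, h4⟩

/-- The core theorem. -/
theorem core [Uncountable K] [LinearOrder (T K)] [WellFoundedLT (T K)]
    (hord : ∀ x : T K, (Iio x).Countable) (c : Code K → Bool) :
    ∃ (z : T K → T K) (i : Bool) (k : K), HH z ∧
      ∀ s : Code K, Acc (graph z) s → T.dum k ∈ dom s.gr → c s = i := by
  by_contra hcon
  push Not at hcon
  -- every clean countable good set has a stuck extension
  have hstuck : ∀ (i : Bool) (k : K) (y : Set (T K × T K)), CGC c i (T.dum k) y →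
      ∃ y', CGC c i (T.dum k) y' ∧ y ⊆ y' ∧ ∃ r : Set (T K × T K), r.Finite ∧ r ⊆ y' ∧
        Stuck c i (T.dum k) y' r := by
    intro i k y hy
    by_contra hno
    push Not at hno
    obtain ⟨z, hz1, hz2⟩ := exists_total hord hy hno
    obtain ⟨s, hs1, hs2, hs3⟩ := hcon z i k (HH_of_good hz1)
    exact hs3 (hz2 s hs1 hs2)
  have hfresh : ∀ y : Set (T K × T K), y.Countable → ∃ k : K, T.dum k ∉ dom y := by
    intro y hy
    by_contra hno
    push Not at hno
    have h1 : (univ : Set K).Countable := by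
      have h2 : (T.dum '' (univ : Set K)).Countable := by
        refine (dom_countable hy).mono ?_
        rintro _ ⟨k, -, rfl⟩
        exact hno k
      exact countable_of_injective_of_countable_image (fun a _ b _ h => by simpa using h) h2
    exact not_countable (countable_univ_iff.1 h1)
  -- adding a dummy keeps things clean for the new dummy
  have hclean : ∀ (i : Bool) (k : K) (y : Set (T K × T K)), Good y → T.dum k ∉ dom y →
      Clean c i (T.dum k) (insert (T.dum k, zero) y) := by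
    intro i k y hy hk
    have h1 : Clean c i (T.dum k) y := by
      intro s hs hζ
      exact absurd (dom_mono hs.1 hζ) hk
    refine h1.insert hy.cl hy.fn hk ?_
    intro s hs
    exact absurd hs (s.tag_ne_dum k)
  -- the step
  have hstep : ∀ y : {y : Set (T K × T K) // y.Countable ∧ Good y},
      ∃ (y' : {y : Set (T K × T K) // y.Countable ∧ Good y}) (k : K) (r : Set (T K × T K)),
        T.dum k ∉ dom y.1 ∧ insert (T.dum k, zero) y.1 ⊆ y'.1 ∧ r.Finite ∧ r ⊆ y'.1 ∧
        Clean c true (T.dum k) y'.1 ∧ Stuck c true (T.dum k) y'.1 r := by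
    rintro ⟨y, hy1, hy2⟩
    obtain ⟨k, hk⟩ := hfresh y hy1
    obtain ⟨y', h1, h2, r, h3, h4, h5⟩ := hstuck true k (insert (T.dum k, zero) y)
      ⟨hy1.insert _, hy2.insert_dum hk, hclean true k y hy2 hk⟩
    exact ⟨⟨y', h1.countable, h1.good⟩, k, r, hk, h2, h3, h4, h1.clean, h5⟩
  choose nxt kk rr hnx1 hnx2 hnx3 hnx4 hnx5 hnx6 using hstep
  let Y : ℕ → {y : Set (T K × T K) // y.Countable ∧ Good y} :=
    fun n => Nat.rec ⟨∅, countable_empty, good_empty⟩ (fun _ y => nxt y) n
  have hYs : ∀ n, Y (n + 1) = nxt (Y n) := fun n => rfl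
  have hYle : ∀ n, (Y n).1 ⊆ (Y (n + 1)).1 := by
    intro n
    rw [hYs]
    exact (subset_insert _ _).trans (hnx2 (Y n))
  have hYmono : Monotone (fun n => (Y n).1) := monotone_nat_of_le_succ hYle
  let κ : ℕ → K := fun n => kk (Y n)
  have hκ1 : ∀ n, T.dum (κ n) ∉ dom (Y n).1 := fun n => hnx1 (Y n)
  have hκ2 : ∀ n, (T.dum (κ n), zero) ∈ (Y (n + 1)).1 := by
    intro n
    rw [hYs]
    exact hnx2 (Y n) (mem_insert _ _)
  have hκinj : Function.Injective κ := by
    have : ∀ m n, m < n → κ m ≠ κ n := by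
      intro m n hmn h
      apply hκ1 n
      rw [← h]
      exact ⟨zero, hYmono (Nat.succ_le_of_lt hmn) (hκ2 m)⟩
    intro m n h
    rcases lt_trichotomy m n with h1 | h1 | h1
    · exact absurd h (this m n h1)
    · exact h1
    · exact absurd h.symm (this n m h1)
  -- the union
  have hωc : (⋃ n, (Y n).1).Countable := countable_iUnion fun n => (Y n).2.1
  have hωf : Fn (⋃ n, (Y n).1) := Fn.iUnion_mono hYmono fun n => (Y n).2.2.fn
  have hωg : Good (⋃ n, (Y n).1) := by
    rw [← sUnion_range] at hωf ⊢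
    refine Good.sUnion ?_ hωf
    rintro _ ⟨n, rfl⟩
    exact (Y n).2.2
  obtain ⟨k, hk⟩ := hfresh _ hωc
  obtain ⟨y', h1, h2, r, h3, h4, h5⟩ := hstuck false k (insert (T.dum k, zero) (⋃ n, (Y n).1))
    ⟨hωc.insert _, hωg.insert_dum hk, hclean false k _ hωg hk⟩
  obtain ⟨l, hl⟩ := hfresh y' h1.countable
  set y'' := insert (T.dum l, zero) y' with hy''
  have hyy'' : y' ⊆ y'' := subset_insert _ _
  have h6 : CGC c false (T.dum k) y'' := by
    refine ⟨h1.countable.insert _, h1.good.insert_dum hl, h1.clean.insert h1.good.cl h1.good.fn hl ?_⟩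
    intro s hs
    exact absurd hs (s.tag_ne_dum l)
  have hky' : (T.dum k, zero) ∈ y' := h2 (mem_insert _ _)
  have hωy' : ∀ n, (Y n).1 ⊆ y' := fun n =>
    (subset_iUnion (fun n => (Y n).1) n).trans ((subset_insert _ _).trans h2)
  obtain ⟨g, hg1, hg2, hg3, hg4⟩ := h6.good.finite_sub
    (F := insert (T.dum k, zero) (insert (T.dum l, zero) r)) ((h3.insert _).insert _) (by
      rintro p (rfl | rfl | hp)
      · exact subset_insert _ _ hky'
      · exact mem_insert _ _
      · exact subset_insert _ _ (h4 hp))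
  -- choose `n` with `κ n` outside the domain of `g`
  obtain ⟨n, hn⟩ : ∃ n, T.dum (κ n) ∉ dom g := by
    by_contra hno
    push Not at hno
    have h7 : (dom g).Finite := by
      have : dom g = Prod.fst '' g := by
        ext a; simp [dom]
      rw [this]; exact hg1.image _
    have h8 : (range fun n => (T.dum (κ n) : T K)).Finite := h7.subset (by
      rintro _ ⟨n, rfl⟩
      exact hno n)
    refine Set.infinite_range_of_injective ?_ h8
    intro a b hab
    exact hκinj (by simpa using hab)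
  -- the new condition
  have hr' : (rr (Y n)).Finite := hnx3 (Y n)
  have hr'' : rr (Y n) ⊆ (Y (n + 1)).1 := by rw [hYs]; exact hnx4 (Y n)
  have hcl1 : Clean c true (T.dum (κ n)) (Y (n + 1)).1 := by rw [hYs]; exact hnx5 (Y n)
  have hst1 : Stuck c true (T.dum (κ n)) (Y (n + 1)).1 (rr (Y n)) := by
    rw [hYs]; exact hnx6 (Y n)
  obtain ⟨s, hs⟩ := exists_code (K := K)
    (F := (insert (T.dum k, zero) (insert (T.dum l, zero) r)) ∪
      insert (T.dum (κ n), zero) (rr (Y n)))
    (((h3.insert _).insert _).union (hr'.insert _))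
  have hsubA : insert (T.dum (κ n), zero) (rr (Y n)) ⊆ (Y (n + 1)).1 := by
    rintro p (rfl | hp)
    · exact hκ2 n
    · exact hr'' hp
  have hsy'' : s.gr ⊆ y'' := by
    rw [hs]
    exact union_subset (hg2.trans hg3) (hsubA.trans ((hωy' (n + 1)).trans hyy''))
  have htag : s.tag ∉ dom y'' := by
    intro h
    rw [hy'', dom_insert] at h
    rcases h with h | h
    · exact s.tag_ne_dum l h
    · have h7 := h1.good.cl.tagdom s h
      apply hl
      apply h7
      refine ⟨zero, ?_⟩
      rw [hs]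
      exact Or.inl (Or.inr (Or.inl rfl))
  have hc0 : c s ≠ false := by
    refine h5 y'' h6 (subset_insert _ _) s hsy'' ?_ ?_ htag
    · rw [hs]
      intro p hp
      exact Or.inl (Or.inr (Or.inr hp))
    · refine ⟨zero, ?_⟩
      rw [hs]
      exact Or.inl (Or.inl rfl)
  have hunion : (Y (n + 1)).1 ∪ g ⊆ y'' :=
    union_subset ((hωy' (n + 1)).trans hyy'') hg3
  have hunionf : Fn ((Y (n + 1)).1 ∪ g) := h6.good.fn.mono hunion
  have hgood : Good ((Y (n + 1)).1 ∪ g) :=
    (Y (n + 1)).2.2.union (Good.of_cl_finite (h6.good.fn.mono hg3) hg1 hg4) hunionf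
  have hc1 : c s ≠ true := by
    refine hst1 ((Y (n + 1)).1 ∪ g) ⟨(Y (n + 1)).2.1.union hg1.countable, hgood, ?_⟩
      subset_union_left s ?_ ?_ ?_ ?_
    · intro t ht hζ
      rcases ht.2 with h | h
      · exact hcl1 t (acc_of_acc hunionf subset_union_left (Y (n + 1)).2.2.cl ht ⟨_, h⟩) hζ
      · exact absurd (hg4.tagdom t ⟨_, h⟩ hζ) hn
    · rw [hs]
      exact union_subset (hg2.trans subset_union_right) (hsubA.trans subset_union_left)
    · rw [hs]
      intro p hp
      exact Or.inr (Or.inr hp)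
    · refine ⟨zero, ?_⟩
      rw [hs]
      exact Or.inr (Or.inl rfl)
    · exact fun h => htag (dom_mono hunion h)
  cases hcs : c s with
  | true => exact hc1 hcs
  | false => exact hc0 hcs

end Pool.Agent.Helper80.BR
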