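import Mathlib
import Pool.Agent.Helper80.BR.Total

/-!
# A closed discrete copy of a set of size `ℵ₁` in a power of the integers, and the order on `T`
-/

namespace Pool.Agent.Helper80.BR

open Set Cardinal

/-- A set of size `ℵ₁` has a well-order with countable initial segments. -/
theorem exists_order {α : Type} (h : #α = ℵ₁) :
    ∃ (_ : LinearOrder α), WellFoundedLT α ∧ ∀ x : α, (Iio x).Countable := by
  have h1 : #α = #((ℵ₁ : Cardinal.{0}).ord.ToType) := by rw [h, Cardinal.mk_ord_toType]
  obtain ⟨e⟩ := Cardinal.eq.1 h1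
  let o : LinearOrder α := LinearOrder.lift' e e.injective
  refine ⟨o, ?_, ?_⟩
  · have h2 : StrictMono e := fun a b hab => hab
    exact h2.wellFoundedLT
  · intro x
    have h3 : (Iio (e x)).Countable := by
      rw [← Cardinal.le_aleph0_iff_set_countable, ← Order.lt_succ_iff, Cardinal.succ_aleph0]
      refine (Cardinal.mk_Iio_lt (e x) ?_).trans_eq (Cardinal.mk_ord_toType _)
      rw [Cardinal.mk_ord_toType, Ordinal.type_toType]
    exact h3.preimage e.injective

section Embed

variable {V : Type} [LinearOrder V]

open Classical in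
/-- The embedding into a power of the integers. -/
noncomputable def emb (f f' : V → V → ℕ) (α : V) : V ⊕ V → ℤ
  | Sum.inl β => if β < α then (f α β : ℤ) + 1 else 0
  | Sum.inr γ => if α ≤ γ then (f' γ α : ℤ) + 1 else 0

theorem emb_eq_self {f f' : V → V → ℕ} (hf' : ∀ γ, InjOn (f' γ) (Iic γ)) {v w : V}
    (h1 : emb f f' w (Sum.inl v) = emb f f' v (Sum.inl v))
    (h2 : emb f f' w (Sum.inr v) = emb f f' v (Sum.inr v)) : w = v := by
  simp only [emb, lt_irrefl, if_false, le_refl, if_true] at h1 h2
  have h3 : w ≤ v := by
    by_contra h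
    rw [if_pos (not_le.1 h)] at h1
    omega
  rw [if_pos h3] at h2
  exact hf' v h3 (mem_Iic.2 le_rfl) (by omega)

theorem emb_two [Uncountable V] {f f' : V → V → ℕ} (hf : ∀ α, InjOn (f α) (Iio α))
    (hf' : ∀ γ, InjOn (f' γ) (Iic γ)) (x : V ⊕ V → ℤ) :
    ∃ j₁ j₂, ∀ α α', (emb f f' α j₁ = x j₁ ∧ emb f f' α j₂ = x j₂) →
      (emb f f' α' j₁ = x j₁ ∧ emb f f' α' j₂ = x j₂) → α = α' := by
  by_cases h : ∃ β, x (Sum.inl β) = 0
  · obtain ⟨β, hβ⟩ := h
    refine ⟨Sum.inl β, Sum.inr β, ?_⟩
    have key : ∀ α, emb f f' α (Sum.inl β) = x (Sum.inl β) → α ≤ β := by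
      intro α h1
      by_contra h2
      simp only [emb] at h1
      rw [if_pos (not_le.1 h2), hβ] at h1
      omega
    rintro α α' ⟨h1, h2⟩ ⟨h3, h4⟩
    have h5 := key α h1
    have h6 := key α' h3
    rw [← h4] at h2
    simp only [emb] at h2
    rw [if_pos h5, if_pos h6] at h2
    exact hf' β h5 h6 (by omega)
  · push Not at h
    obtain ⟨β, β', hne, hx⟩ : ∃ β β', β ≠ β' ∧ x (Sum.inl β) = x (Sum.inl β') := by
      by_contra hno
      push Not at hno
      have hinj : Function.Injective (fun β : V => x (Sum.inl β)) := by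
        intro a b hab
        by_contra hne
        exact hno a b hne hab
      exact not_countable (α := V) hinj.countable
    refine ⟨Sum.inl β, Sum.inl β', ?_⟩
    rintro α α' ⟨h1, h2⟩ -
    exfalso
    simp only [emb] at h1 h2
    have h3 : β < α := by
      by_contra h3
      rw [if_neg h3] at h1
      exact h β h1.symm
    have h4 : β' < α := by
      by_contra h4
      rw [if_neg h4] at h2
      exact h β' h2.symm
    rw [if_pos h3] at h1
    rw [if_pos h4, ← hx] at h2
    exact hne (hf α h3 h4 (by omega))

end Embed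

/-- A map `e` from `V` into a power of the integers (indexed by `V ⊕ V`) such that the values at
the coordinates `inl v`, `inr v` isolate the point `v`, and near every point some two coordinates
determine at most one point. -/
theorem exists_emb {V : Type} (h : #V = ℵ₁) :
    ∃ e : V → V ⊕ V → ℤ,
      (∀ v w, e w (Sum.inl v) = e v (Sum.inl v) → e w (Sum.inr v) = e v (Sum.inr v) → w = v) ∧
      (∀ x : V ⊕ V → ℤ, ∃ j₁ j₂, ∀ α α', (e α j₁ = x j₁ ∧ e α j₂ = x j₂) →
        (e α' j₁ = x j₁ ∧ e α' j₂ = x j₂) → α = α') := by
  obtain ⟨o, -, hord⟩ := exists_order h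
  have hunc : Uncountable V := by
    rw [← Cardinal.aleph0_lt_mk_iff, h]
    exact Cardinal.aleph0_lt_aleph_one
  have h1 : ∀ α : V, ∃ f : V → ℕ, InjOn f (Iio α) := fun α =>
    Set.countable_iff_exists_injOn.1 (hord α)
  have h2 : ∀ α : V, ∃ f : V → ℕ, InjOn f (Iic α) := fun α => by
    apply Set.countable_iff_exists_injOn.1
    rw [← Iio_insert]
    exact (hord α).insert _
  choose f hf using h1
  choose f' hf' using h2
  exact ⟨emb f f', fun v w h3 h4 => emb_eq_self hf' h3 h4, fun x => emb_two hf hf' x⟩

/-- Arities of the nodes of `T K`. -/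
def Arity (K : Type) : K ⊕ (Bool × ℕ) → Type
  | Sum.inl _ => Empty
  | Sum.inr p => Fin p.2 ⊕ Fin p.2

/-- Children of an encoded node. -/
def child {K : Type} (b : Bool) (n : ℕ) (f g : Fin n → WType (Arity K)) :
    Arity K (Sum.inr (b, n)) → WType (Arity K) :=
  fun a => Sum.elim (γ := WType (Arity K)) f g (show Fin n ⊕ Fin n from a)

/-- Encoding of `T K` as a W-type. -/
def enc {K : Type} : T K → WType (Arity K)
  | .dum k => WType.mk (Sum.inl k) (fun a => Empty.elim (show Empty from a))
  | .node b n f g => WType.mk (Sum.inr (b, n)) (child b n (fun i => enc (f i)) (fun i => enc (g i)))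

theorem enc_injective {K : Type} : Function.Injective (enc : T K → WType (Arity K)) := by
  intro t
  induction t with
  | dum k =>
    intro t' ht
    cases t' with
    | dum k' =>
      simp only [enc] at ht
      injection ht with h1 h2
      rw [Sum.inl.inj h1]
    | node b n f g =>
      simp only [enc] at ht
      injection ht with h1 h2
      exact absurd h1 (by simp)
  | node b n f g ihf ihg =>
    intro t' ht
    cases t' with
    | dum k' =>
      simp only [enc] at ht
      injection ht with h1 h2
      exact absurd h1 (by simp)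
    | node b' n' f' g' =>
      simp only [enc] at ht
      injection ht with h1 h2
      obtain ⟨rfl, rfl⟩ := Prod.mk.inj (Sum.inr.inj h1)
      have h4 := eq_of_heq h2
      have h5 : f = f' := by
        funext i
        have h := congrFun h4 (show Arity K (Sum.inr (b, n)) from (Sum.inl i : Fin n ⊕ Fin n))
        exact ihf i h
      have h6 : g = g' := by
        funext i
        have h := congrFun h4 (show Arity K (Sum.inr (b, n)) from (Sum.inr i : Fin n ⊕ Fin n))
        exact ihg i h
      rw [h5, h6]

/-- The cardinality of `T K`. -/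
theorem mk_T {K : Type} (h : #K = ℵ₁) : #(T K) = ℵ₁ := by
  apply le_antisymm
  · have hfin : ∀ a, Finite (Arity K a) := by
      rintro (k | p)
      · change Finite Empty; infer_instance
      · change Finite (Fin p.2 ⊕ Fin p.2); infer_instance
    have h1 : #(T K) ≤ #(WType (Arity K)) := Cardinal.mk_le_of_injective enc_injective
    refine h1.trans ((WType.cardinalMk_le_max_aleph0_of_finite).trans ?_)
    apply max_le
    · have : #(K ⊕ (Bool × ℕ)) = ℵ₁ := by
        simp only [Cardinal.mk_sum, h, Cardinal.lift_id]
        apply Cardinal.add_eq_left Cardinal.aleph0_lt_aleph_one.le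
        refine (Cardinal.mk_le_aleph0).trans Cardinal.aleph0_lt_aleph_one.le
      exact this.le
    · exact Cardinal.aleph0_lt_aleph_one.le
  · rw [← h]
    exact Cardinal.mk_le_of_injective (f := T.dum) (fun a b h => by simpa using h)

end Pool.Agent.Helper80.BR
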