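import Mathlib
import Pool.Agent.Helper80.BR.Embed
import Pool.Agent.Helper53.BaseResDefs

/-!
# The base of the power of the reals
-/

namespace Pool.Agent.Helper80.BR

open Set Cardinal TopologicalSpace Pool.Agent.Helper53.BaseRes

/-- In a power of the reals, an open neighbourhood contains a uniform basic one. -/
theorem exists_basic {ι : Type*} {O : Set (ι → ℝ)} (hO : IsOpen O) {x : ι → ℝ} (hx : x ∈ O) :
    ∃ (F : Set ι) (δ : ℝ), F.Finite ∧ 0 < δ ∧ ∀ x' : ι → ℝ, (∀ i ∈ F, |x' i - x i| < δ) → x' ∈ O := by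
  obtain ⟨I, u, hu, hsub⟩ := isOpen_pi_iff.1 hO x hx
  have h1 : ∀ i ∈ I, ∃ δ : ℝ, 0 < δ ∧ Metric.ball (x i) δ ⊆ u i := fun i hi =>
    Metric.isOpen_iff.1 (hu i hi).1 _ (hu i hi).2
  choose! d hd1 hd2 using h1
  have h2 : ∃ δ : ℝ, 0 < δ ∧ ∀ i ∈ I, δ ≤ d i := by
    rcases I.eq_empty_or_nonempty with rfl | hI
    · exact ⟨1, one_pos, by simp⟩
    · refine ⟨I.inf' hI d, ?_, fun i hi => Finset.inf'_le _ hi⟩
      rw [Finset.lt_inf'_iff]
      exact hd1
  obtain ⟨δ, hδ, hle⟩ := h2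
  refine ⟨I, δ, I.finite_toSet, hδ, ?_⟩
  intro x' hx'
  apply hsub
  intro i hi
  apply hd2 i hi
  rw [Metric.mem_ball, Real.dist_eq]
  exact (hx' i hi).trans_le (hle i hi)

section

variable {K : Type} (e : T K → T K ⊕ T K → ℤ)

/-- The point of the power of the reals given by a function `T K → T K`. -/
noncomputable def phi (z : T K → T K) : T K × (T K ⊕ T K) → ℝ := fun p => (e (z p.1) p.2 : ℝ)

/-- The closed set of all histories. -/
noncomputable def HT : Set (T K × (T K ⊕ T K) → ℝ) := phi e '' {z | HH z}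

/-- The pairs required by a basic set. -/
def gp (s : Code K) : Set (T K × T K) := insert (s.tag, one) s.gr

/-- The points of `T K` mentioned by a code. -/
def ment (s : Code K) : Set (T K) := insert one (range s.f ∪ range s.g)

/-- The radius of a basic set. -/
noncomputable def rad (s : Code K) : ℝ := 1 / ((s.gr.ncard : ℝ) + 2)

/-- The basic set of a code. -/
noncomputable def Bt (s : Code K) : Set (T K × (T K ⊕ T K) → ℝ) :=
  {x | ∀ p ∈ gp s, ∀ w ∈ ment s, |x (p.1, Sum.inl w) - e p.2 (Sum.inl w)| < rad s ∧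
    |x (p.1, Sum.inr w) - e p.2 (Sum.inr w)| < rad s}

theorem rad_pos (s : Code K) : 0 < rad s := by
  unfold rad; positivity

theorem rad_le_half (s : Code K) : rad s ≤ 1 / 2 := by
  unfold rad
  apply one_div_le_one_div_of_le (by norm_num)
  have : (0 : ℝ) ≤ s.gr.ncard := Nat.cast_nonneg _
  linarith

theorem gp_finite (s : Code K) : (gp s).Finite := s.gr_finite.insert _

theorem ment_finite (s : Code K) : (ment s).Finite :=
  ((finite_range _).union (finite_range _)).insert _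

theorem snd_mem_ment {s : Code K} {p : T K × T K} (hp : p ∈ gp s) : p.2 ∈ ment s := by
  rcases hp with rfl | ⟨i, rfl⟩
  · exact Or.inl rfl
  · exact Or.inr (Or.inr ⟨i, rfl⟩)

theorem isOpen_Bt (s : Code K) : IsOpen (Bt e s) := by
  have h : Bt e s = ⋂ p ∈ gp s, ⋂ w ∈ ment s,
      ({x : T K × (T K ⊕ T K) → ℝ | |x (p.1, Sum.inl w) - e p.2 (Sum.inl w)| < rad s} ∩
        {x : T K × (T K ⊕ T K) → ℝ | |x (p.1, Sum.inr w) - e p.2 (Sum.inr w)| < rad s}) := by
    ext x
    simp only [Bt, mem_iInter, mem_inter_iff]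
    rfl
  rw [h]
  refine (gp_finite s).isOpen_biInter fun p _ => (ment_finite s).isOpen_biInter fun w _ => ?_
  refine IsOpen.inter ?_ ?_
  · exact isOpen_lt (by fun_prop) continuous_const
  · exact isOpen_lt (by fun_prop) continuous_const

theorem int_eq_of_abs_lt {a b : ℤ} {r : ℝ} (hr : r ≤ 1 / 2) (h : |(a : ℝ) - b| < r) : a = b := by
  have h1 : |(a : ℝ) - b| < 1 := by linarith
  have h2 : |((a - b : ℤ) : ℝ)| < 1 := by push_cast; exact h1
  rw [← Int.cast_abs] at h2
  have h3 : |a - b| < 1 := by exact_mod_cast h2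
  rw [Int.abs_lt_one_iff] at h3
  omega

theorem round_eq_of_abs_lt {a : ℤ} {x : ℝ} (h : |(a : ℝ) - x| < 1 / 2) : a = round x := by
  symm
  rw [round_eq, Int.floor_eq_iff]
  rw [abs_lt] at h
  constructor <;> linarith

variable {e}

theorem phi_mem_Bt (he : ∀ v w, e w (Sum.inl v) = e v (Sum.inl v) →
      e w (Sum.inr v) = e v (Sum.inr v) → w = v) {z : T K → T K} {s : Code K} :
    phi e z ∈ Bt e s ↔ Acc (graph z) s := by
  constructor
  · intro h
    have h1 : gp s ⊆ graph z := by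
      intro p hp
      obtain ⟨h2, h3⟩ := h p hp p.2 (snd_mem_ment hp)
      apply he
      · exact int_eq_of_abs_lt (rad_le_half s) h2
      · exact int_eq_of_abs_lt (rad_le_half s) h3
    exact ⟨(subset_insert _ _).trans h1, h1 (mem_insert _ _)⟩
  · intro h p hp w _
    have h1 : p ∈ graph z := by
      rcases hp with rfl | hp
      · exact h.2
      · exact h.1 hp
    have h2 : z p.1 = p.2 := h1
    simp only [phi, h2, sub_self, abs_zero]
    exact ⟨rad_pos s, rad_pos s⟩

/-- The accepted basic sets form a local base at every history. -/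
theorem exists_Bt_subset [Infinite K] {z : T K → T K} (hz : HH z)
    {O : Set (T K × (T K ⊕ T K) → ℝ)} (hO : IsOpen O) (hx : phi e z ∈ O) :
    ∃ s : Code K, Acc (graph z) s ∧ Bt e s ⊆ O := by
  obtain ⟨F, δ, hF, hδ, hsub⟩ := exists_basic hO hx
  obtain ⟨N, hN⟩ := exists_nat_gt (1 / δ)
  -- a finite set of coordinates
  have : Infinite (T K) := Infinite.of_injective (T.dum : K → T K) (fun a b h => by simpa using h)
  obtain ⟨D0, hD0⟩ := Infinite.exists_subset_card_eq (T K) N
  let D : Set (T K) := (Prod.fst '' F) ∪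
    ((fun p : T K × (T K ⊕ T K) => Sum.elim id id p.2) '' F) ∪ D0
  have hD : D.Finite := ((hF.image _).union (hF.image _)).union D0.finite_toSet
  obtain ⟨s0, hs0⟩ := exists_code (F := (fun a => (a, z a)) '' D) (hD.image _)
  have hs0z : s0.gr ⊆ graph z := by
    rw [hs0]
    rintro _ ⟨a, -, rfl⟩
    rfl
  obtain ⟨s, -, h1, h2, h3⟩ := hz s0 hs0z
  refine ⟨s, ⟨h2, h3⟩, ?_⟩
  -- the radius is small
  have hcard : (N : ℝ) ≤ s.gr.ncard := by
    have h4 : D0.card ≤ s.gr.ncard := by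
      have h5 : ((fun a => (a, z a)) '' (D0 : Set (T K))).ncard = D0.card := by
        rw [ncard_image_of_injective _ (fun a b h => (Prod.mk.inj h).1), ncard_coe_finset]
      rw [← h5]
      refine ncard_le_ncard ?_ s.gr_finite
      refine Subset.trans ?_ h1
      rw [hs0]
      exact image_mono subset_union_right
    rw [hD0] at h4
    exact_mod_cast h4
  have hrad : rad s ≤ δ := by
    unfold rad
    rw [div_le_iff₀ (by positivity)]
    rw [div_lt_iff₀ hδ] at hN
    nlinarith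
  intro x hxs
  apply hsub
  rintro ⟨i, j⟩ hij
  have hi : (i, z i) ∈ s.gr := by
    apply h1
    rw [hs0]
    exact ⟨i, Or.inl (Or.inl ⟨(i, j), hij, rfl⟩), rfl⟩
  rcases j with w | w
  · have hw : w ∈ ment s := by
      have h6 : (w, z w) ∈ s.gr := by
        apply h1
        rw [hs0]
        exact ⟨w, Or.inl (Or.inr ⟨(i, Sum.inl w), hij, rfl⟩), rfl⟩
      obtain ⟨k, hk⟩ := h6
      exact Or.inr (Or.inl ⟨k, (Prod.mk.inj hk).1⟩)
    exact (hxs (i, z i) (Or.inr hi) w hw).1.trans_le hrad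
  · have hw : w ∈ ment s := by
      have h6 : (w, z w) ∈ s.gr := by
        apply h1
        rw [hs0]
        exact ⟨w, Or.inl (Or.inr ⟨(i, Sum.inr w), hij, rfl⟩), rfl⟩
      obtain ⟨k, hk⟩ := h6
      exact Or.inr (Or.inl ⟨k, (Prod.mk.inj hk).1⟩)
    exact (hxs (i, z i) (Or.inr hi) w hw).2.trans_le hrad

/-- The set of histories is closed. -/
theorem isClosed_HT (he : ∀ v w, e w (Sum.inl v) = e v (Sum.inl v) →
      e w (Sum.inr v) = e v (Sum.inr v) → w = v)
    (he2 : ∀ x : T K ⊕ T K → ℤ, ∃ j₁ j₂, ∀ α α', (e α j₁ = x j₁ ∧ e α j₂ = x j₂) →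
        (e α' j₁ = x j₁ ∧ e α' j₂ = x j₂) → α = α') : IsClosed (HT e) := by
  apply isClosed_of_closure_subset
  intro x hx
  rw [mem_closure_iff] at hx
  -- approximation on finitely many coordinates
  have happ : ∀ (F : Set (T K × (T K ⊕ T K))) (δ : ℝ), F.Finite → 0 < δ →
      ∃ z, HH z ∧ ∀ p ∈ F, |(e (z p.1) p.2 : ℝ) - x p| < δ := by
    intro F δ hF hδ
    have hopen : IsOpen (⋂ p ∈ F, {x' : T K × (T K ⊕ T K) → ℝ | |x' p - x p| < δ}) :=
      hF.isOpen_biInter fun p _ => isOpen_lt (by fun_prop) continuous_const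
    obtain ⟨y, hy1, z, hz, rfl⟩ := hx _ hopen (by
      rw [mem_iInter₂]
      intro p _
      change |x p - x p| < δ
      simpa using hδ)
    refine ⟨z, hz, ?_⟩
    intro p hp
    exact mem_iInter₂.1 hy1 p hp
  -- the limit function
  have hlim : ∀ i, ∃ v, ∀ j, x (i, j) = e v j := by
    intro i
    obtain ⟨j₁, j₂, h12⟩ := he2 (fun j => round (x (i, j)))
    obtain ⟨z, hz, hzF⟩ := happ {(i, j₁), (i, j₂)} (1 / 2) (by simp) (by norm_num)
    have h1 := round_eq_of_abs_lt (hzF (i, j₁) (by simp))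
    have h2 := round_eq_of_abs_lt (hzF (i, j₂) (by simp))
    refine ⟨z i, fun j => ?_⟩
    by_contra hne
    have hpos : 0 < |(e (z i) j : ℝ) - x (i, j)| := by
      rw [abs_pos, sub_ne_zero]
      exact fun h => hne h.symm
    obtain ⟨z', hz', hzF'⟩ := happ {(i, j₁), (i, j₂), (i, j)}
      (min (1 / 2) |(e (z i) j : ℝ) - x (i, j)|) (by simp) (lt_min (by norm_num) hpos)
    have h3 := round_eq_of_abs_lt ((hzF' (i, j₁) (by simp)).trans_le (min_le_left _ _))
    have h4 := round_eq_of_abs_lt ((hzF' (i, j₂) (by simp)).trans_le (min_le_left _ _))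
    have h5 : z' i = z i := h12 _ _ ⟨h3, h4⟩ ⟨h1, h2⟩
    have h6 := (hzF' (i, j) (by simp)).trans_le (min_le_right _ _)
    simp only [h5] at h6
    exact lt_irrefl _ h6
  choose v hv using hlim
  have hxv : x = phi e v := by
    funext ⟨i, j⟩
    exact hv i j
  have happ2 : ∀ F : Set (T K), F.Finite → ∃ z, HH z ∧ ∀ i ∈ F, z i = v i := by
    intro F hF
    obtain ⟨z, hz, hzF⟩ := happ
      (((fun i => (i, Sum.inl (v i))) '' F) ∪ ((fun i => (i, Sum.inr (v i))) '' F)) (1 / 2)
      ((hF.image _).union (hF.image _)) (by norm_num)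
    refine ⟨z, hz, fun i hi => ?_⟩
    apply he
    · have := hzF (i, Sum.inl (v i)) (Or.inl ⟨i, hi, rfl⟩)
      rw [hv i] at this
      exact int_eq_of_abs_lt le_rfl this
    · have := hzF (i, Sum.inr (v i)) (Or.inr ⟨i, hi, rfl⟩)
      rw [hv i] at this
      exact int_eq_of_abs_lt le_rfl this
  refine ⟨v, ?_, hxv.symm⟩
  change HH v
  intro s hs
  have hdomf : ∀ t : Code K, (dom t.gr).Finite := by
    intro t
    have : dom t.gr = Prod.fst '' t.gr := by
      ext a; simp [dom]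
    rw [this]; exact t.gr_finite.image _
  have hagree : ∀ (t : Code K) (z z' : T K → T K), (∀ i ∈ dom t.gr, z i = z' i) →
      t.gr ⊆ graph z → t.gr ⊆ graph z' := by
    rintro t z z' h1 h2 ⟨a, b⟩ hab
    have h3 : z a = b := h2 hab
    change z' a = b
    rw [← h3, h1 a ⟨b, hab⟩]
  obtain ⟨z1, hz1, hz1F⟩ := happ2 (insert s.ptr (dom s.gr)) ((hdomf s).insert _)
  obtain ⟨s', h1, h2, -, -⟩ := hz1 s (hagree s v z1 (fun i hi => (hz1F i (Or.inr hi)).symm) hs)
  rw [hz1F s.ptr (mem_insert _ _)] at h1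
  obtain ⟨z2, hz2, hz2F⟩ := happ2 (insert s.ptr (dom s.gr) ∪ insert s'.tag (dom s'.gr))
    (((hdomf s).insert _).union ((hdomf s').insert _))
  obtain ⟨s'', h3, h4, h5, h6⟩ := hz2 s
    (hagree s v z2 (fun i hi => (hz2F i (Or.inl (Or.inr hi))).symm) hs)
  rw [hz2F s.ptr (Or.inl (mem_insert _ _)), h1] at h3
  have h7 : s' = s'' := Code.tag_inj h3
  subst h7
  refine ⟨s', h1, h2, ?_, ?_⟩
  · exact hagree s' z2 v (fun i hi => hz2F i (Or.inr (Or.inr hi))) h5
  · rw [← hz2F s'.tag (Or.inr (mem_insert _ _))]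
    exact h6

end

/-- **Main theorem**, for the power indexed by `T K × (T K ⊕ T K)`. -/
theorem exists_base_not_resolvable {K : Type} (hK : #K = ℵ₁) :
    ∃ 𝓑 : Set (Set (T K × (T K ⊕ T K) → ℝ)), IsTopologicalBasis 𝓑 ∧ ¬ ResolvableBase 𝓑 := by
  obtain ⟨o, hwf, hord⟩ := exists_order (mk_T hK)
  obtain ⟨e, he, he2⟩ := exists_emb (mk_T hK)
  have hunc : Uncountable K := by
    rw [← Cardinal.aleph0_lt_mk_iff, hK]
    exact Cardinal.aleph0_lt_aleph_one
  have hclosed := isClosed_HT he he2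
  refine ⟨range (Bt e) ∪ {U | IsOpen U ∧ Disjoint U (HT e)}, ?_, ?_⟩
  · apply isTopologicalBasis_of_isOpen_of_nhds
    · rintro U (⟨s, rfl⟩ | ⟨hU, -⟩)
      · exact isOpen_Bt e s
      · exact hU
    · intro x O hx hO
      by_cases hxH : x ∈ HT e
      · obtain ⟨z, hz, rfl⟩ := hxH
        obtain ⟨s, hs1, hs2⟩ := exists_Bt_subset hz hO hx
        exact ⟨Bt e s, Or.inl ⟨s, rfl⟩, (phi_mem_Bt he).2 hs1, hs2⟩
      · exact ⟨O \ HT e, Or.inr ⟨hO.sdiff hclosed, disjoint_sdiff_left⟩, ⟨hx, hxH⟩, sdiff_subset⟩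
  · rintro ⟨𝓑₀, 𝓑₁, hun, hdis, hb0, hb1⟩
    classical
    obtain ⟨z, i, k, hz, hcol⟩ := core hord (fun s => decide (Bt e s ∈ 𝓑₁))
    -- the base of the other colour
    have hother : ∃ 𝓑' : Set (Set (T K × (T K ⊕ T K) → ℝ)), IsTopologicalBasis 𝓑' ∧
        𝓑' ⊆ 𝓑₀ ∪ 𝓑₁ ∧ ∀ s, Bt e s ∈ 𝓑' → decide (Bt e s ∈ 𝓑₁) ≠ i := by
      cases i with
      | true =>
        refine ⟨𝓑₀, hb0, subset_union_left, fun s hs => ?_⟩
        have : Bt e s ∉ 𝓑₁ := fun h => disjoint_left.1 hdis hs h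
        simp [this]
      | false =>
        refine ⟨𝓑₁, hb1, subset_union_right, fun s hs => ?_⟩
        simp [hs]
    obtain ⟨𝓑', hb', hsub', hcol'⟩ := hother
    let U : Set (T K × (T K ⊕ T K) → ℝ) :=
      {x | |x (T.dum k, Sum.inl one) - e (z (T.dum k)) (Sum.inl one)| < 1 / 2}
    have hU : IsOpen U := isOpen_lt (by fun_prop) continuous_const
    have hzU : phi e z ∈ U := by
      change |phi e z (T.dum k, Sum.inl one) - e (z (T.dum k)) (Sum.inl one)| < 1 / 2
      simp [phi]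
    obtain ⟨B, hB, hzB, hBU⟩ := hb'.exists_subset_of_mem_open hzU hU
    have hB2 : B ∈ range (Bt e) ∪ {U | IsOpen U ∧ Disjoint U (HT e)} := by
      rw [hun]; exact hsub' hB
    rcases hB2 with ⟨s, rfl⟩ | ⟨-, hd⟩
    · have hacc : Acc (graph z) s := (phi_mem_Bt he).1 hzB
      apply hcol' s hB
      apply hcol s hacc
      -- the dummy is in the domain
      by_contra hnd
      have h1 : Function.update (phi e z) (T.dum k, Sum.inl one)
          (phi e z (T.dum k, Sum.inl one) + 1) ∈ Bt e s := by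
        intro p hp w hw
        have hne : p.1 ≠ T.dum k := by
          rcases hp with rfl | hp
          · exact s.tag_ne_dum k
          · intro h
            exact hnd ⟨p.2, by rw [← h]; exact hp⟩
        have h2 := hzB p hp w hw
        rw [Function.update_of_ne (by simp [hne]), Function.update_of_ne (by simp [hne])]
        exact h2
      have h3 := hBU h1
      change |Function.update (phi e z) (T.dum k, Sum.inl one)
          (phi e z (T.dum k, Sum.inl one) + 1) (T.dum k, Sum.inl one) -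
            e (z (T.dum k)) (Sum.inl one)| < 1 / 2 at h3
      rw [Function.update_self] at h3
      simp only [phi, add_sub_cancel_left, abs_one] at h3
      norm_num at h3
    · exact disjoint_left.1 hd hzB ⟨z, hz, rfl⟩

end Pool.Agent.Helper80.BR
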