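import Mathlib
import Pool.Agent.Helper80.BR.Top
import Pool.Agent.Helper53.BaseResDefs
import Pool.Agent.Helper53.BaseResMetric

/-!
# Transfer to an arbitrary index set of size `ℵ₁`
-/

namespace Pool.Agent.Helper80.BR

open Set Cardinal TopologicalSpace Pool.Agent.Helper53.BaseRes

universe u v

/-- A homeomorphism transfers non-resolvable bases. -/
theorem transfer {X : Type u} {Y : Type v} [TopologicalSpace X] [TopologicalSpace Y] (h : X ≃ₜ Y)
    (hX : ∃ 𝓑 : Set (Set X), IsTopologicalBasis 𝓑 ∧ ¬ ResolvableBase 𝓑) :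
    ∃ 𝓑 : Set (Set Y), IsTopologicalBasis 𝓑 ∧ ¬ ResolvableBase 𝓑 := by
  obtain ⟨𝓑, hb, hn⟩ := hX
  refine ⟨{U | h ⁻¹' U ∈ 𝓑}, ?_, ?_⟩
  · apply isTopologicalBasis_of_isOpen_of_nhds
    · intro U hU
      exact h.isOpen_preimage.1 (hb.isOpen hU)
    · intro a O ha hO
      obtain ⟨B, hB, haB, hBO⟩ := hb.exists_subset_of_mem_open (a := h.symm a) (u := h ⁻¹' O)
        (by simpa using ha) (hO.preimage h.continuous)
      refine ⟨h.symm ⁻¹' B, ?_, haB, ?_⟩
      · change h ⁻¹' (h.symm ⁻¹' B) ∈ 𝓑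
        rw [← preimage_comp]
        simpa using hB
      · intro b hb'
        have := hBO hb'
        simpa using this
  · rintro ⟨𝓑₀, 𝓑₁, hun, hdis, hb0, hb1⟩
    apply hn
    have key : ∀ 𝓑' : Set (Set Y), IsTopologicalBasis 𝓑' →
        IsTopologicalBasis {B : Set X | h.symm ⁻¹' B ∈ 𝓑'} := by
      intro 𝓑' hb'
      apply isTopologicalBasis_of_isOpen_of_nhds
      · intro U hU
        exact h.symm.isOpen_preimage.1 (hb'.isOpen hU)
      · intro a O ha hO
        obtain ⟨B, hB, haB, hBO⟩ := hb'.exists_subset_of_mem_open (a := h a) (u := h.symm ⁻¹' O)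
          (by simpa using ha) (hO.preimage h.symm.continuous)
        refine ⟨h ⁻¹' B, ?_, haB, ?_⟩
        · change h.symm ⁻¹' (h ⁻¹' B) ∈ 𝓑'
          rw [← preimage_comp]
          simpa using hB
        · intro b hb'
          have := hBO hb'
          simpa using this
    refine ⟨{B | h.symm ⁻¹' B ∈ 𝓑₀}, {B | h.symm ⁻¹' B ∈ 𝓑₁}, ?_, ?_, key _ hb0, key _ hb1⟩
    · ext B
      have h1 : B ∈ 𝓑 ↔ h.symm ⁻¹' B ∈ {U | h ⁻¹' U ∈ 𝓑} := by
        change B ∈ 𝓑 ↔ h ⁻¹' (h.symm ⁻¹' B) ∈ 𝓑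
        rw [← preimage_comp]
        simp
      rw [h1, hun]
      rfl
    · rw [disjoint_left] at hdis ⊢
      exact fun B hB0 hB1 => hdis hB0 hB1

/-- A power of the reals with a nonempty exponent has no isolated points. -/
theorem noIsolated_pi (κ : Type u) [Nonempty κ] : NoIsolated (κ → ℝ) := by
  intro x hx
  obtain ⟨F, δ, hF, hδ, hsub⟩ := exists_basic hx (mem_singleton x)
  have h1 := hsub (fun i => x i + δ / 2) (fun i _ => by
    rw [add_sub_cancel_left, abs_of_pos (by linarith)]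
    linarith)
  have h2 := congrFun (mem_singleton_iff.1 h1) (Classical.arbitrary κ)
  linarith

/-- Countable powers of the reals are base resolvable (a known fact). -/
theorem baseResolvable_countable (κ : Type u) [Nonempty κ] [Countable κ] :
    BaseResolvable (κ → ℝ) := by
  let _ : MetricSpace (κ → ℝ) := TopologicalSpace.metrizableSpaceMetric (κ → ℝ)
  exact baseResolvable_of_metricSpace (κ → ℝ) (noIsolated_pi κ)

/-- The real line is base resolvable (a known fact). -/
theorem baseResolvable_real : BaseResolvable ℝ := by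
  refine baseResolvable_of_metricSpace ℝ ?_
  intro x hx
  obtain ⟨δ, hδ, hsub⟩ := Metric.isOpen_iff.1 hx x rfl
  have h1 : x + δ / 2 ∈ Metric.ball x δ := by
    rw [Metric.mem_ball, Real.dist_eq, add_sub_cancel_left, abs_of_pos (by linarith)]
    linarith
  have h2 : x + δ / 2 = x := hsub h1
  linarith

/-- Powers of the reals with exponent of size `ℵ₁` have a non-resolvable base. -/
theorem exists_base_pi (κ : Type u) (hκ : #κ = ℵ₁) :
    ∃ 𝓑 : Set (Set (κ → ℝ)), IsTopologicalBasis 𝓑 ∧ ¬ ResolvableBase 𝓑 := by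
  let K : Type := (ℵ₁ : Cardinal.{0}).out
  have hK : #K = ℵ₁ := Cardinal.mk_out _
  have h1 : #(T K × (T K ⊕ T K)) = ℵ₁ := by
    rw [Cardinal.mk_prod, Cardinal.mk_sum]
    simp only [Cardinal.lift_id, mk_T hK]
    rw [Cardinal.add_eq_self Cardinal.aleph0_lt_aleph_one.le,
      Cardinal.mul_eq_self Cardinal.aleph0_lt_aleph_one.le]
  have h2 : Cardinal.lift.{u} #(T K × (T K ⊕ T K)) = Cardinal.lift.{0} #κ := by
    rw [h1, hκ]
    simp
  obtain ⟨e⟩ := Cardinal.lift_mk_eq'.1 h2
  exact transfer (Homeomorph.piCongrLeft (Y := fun _ : κ => ℝ) e) (exists_base_not_resolvable hK)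

end Pool.Agent.Helper80.BR
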